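import Pool.Agent.InnerComp.Main

open Filter Topology MeasureTheory Pool.Agent.InnerComp

namespace Pool.Agent.Results.MP_9b5b1e_an.FullDenjoyWolffSet

/-- **Divergence of `∑ (1 - |F_n(0)|)` does not force the Denjoy–Wolff set of a contracting forward
composition of inner functions to be null.**

For every non-increasing sequence `δ_n ∈ (0, 1]` tending to `0` (for instance `δ_n = 1/(n+1)`, so
that `∑ δ_n = ∞`) there are inner functions `f_n`, none of them injective, such that
`F_n = f_n ∘ ⋯ ∘ f_1` is contracting, interior orbits converge to the boundary,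
`1 - |F_n(0)| = δ_n` for all `n ≥ 1`, and the Denjoy–Wolff set has full measure. -/
theorem result (δ : ℕ → ℝ) (hδ : Antitone δ) (hpos : ∀ n, 0 < δ n) (hle : ∀ n, δ n ≤ 1)
    (hlim : Tendsto δ atTop (𝓝 0)) :
    ∃ f : ℕ → ℂ → ℂ,
      (∀ n, IsInner (f n) ∧ ¬ Set.InjOn (f n) (Metric.ball 0 1)) ∧
      IsContracting (forwardComp f) ∧
      (∀ z ∈ Metric.ball (0 : ℂ) 1, Tendsto (fun n => ‖forwardComp f n z‖) atTop (𝓝 1)) ∧
      (∀ n, 1 ≤ n → 1 - ‖forwardComp f n 0‖ = δ n) ∧
      (∀ᵐ θ : ℝ, θ ∈ denjoyWolffSet (forwardComp f)) :=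
  main δ hδ hpos hle hlim

end Pool.Agent.Results.MP_9b5b1e_an.FullDenjoyWolffSet
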